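import Mathlib
import Pool.Agent.Q43.HTM.Fin

/-!
# The Mumford-Tate conjecture for `H^2`: irreducibility decides

`T = T_1 ⊕ ... ⊕ T_r` is a polarised rational Hodge structure of level two, twisted to weight zero
(for example the transcendental part of `H^2(X)(1)`, `X` a surface; `c a` says to which summand the
`a`-th basis vector belongs), and `V` is a rational Hodge structure for which the Lie algebra of the
Mumford-Tate group has only the Hodge types `(-1,1)`, `(0,0)`, `(1,-1)` (for example the algebraic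
classes in `H^2(X)(1)`, or any Hodge structure in the tensor category generated by the `H^1` of
abelian varieties).

The Hodge structure `T` is an element of `HS n` (the starting files): it consists of the
intersection form `T.Q` and the Hodge operator `T.x`, which is `1`, `0`, `-1` on the pieces of type
`(1,-1)`, `(0,0)`, `(-1,1)`.  The condition `T.Big c p q` (the starting files) says: the only
endomorphisms of the rational Hodge structure `T` are those that are a rational scalar on each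
`T_i`, the Hodge numbers of `T_i` are `(p i, q i, p i)`, and (for `p i > 1`)
`2 (p i)^2 ((p i)^2 + 1) < (q i - 2 p i) (q i + p i)`.

The field `C_ℓ` is identified with the complex numbers by an embedding `j` of `ℚ_ℓ`.  No place of
bad reduction is used: instead of it the theorem uses the Hodge-Tate decomposition, which always
exists.
-/

set_option autoImplicit false

namespace Pool.Agent.Results.MP_6369ef_ag.IrreducibilityDecides

open MvPolynomial Matrix
open Pool.Agent.W544.PG (HS BD)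

noncomputable section

section groups

variable {ι : Type} [Fintype ι] [DecidableEq ι]

/-- The value of a polynomial in the entries at a matrix. -/
def value {F : Type} [CommRing F] [Algebra F ℂ] (g : Matrix ι ι ℂ)
    (f : MvPolynomial (ι × ι) F) : ℂ :=
  aeval (fun q : ι × ι => g q.1 q.2) f

/-- `G` is the set of complex points of an algebraic subgroup over `ℚ` of the general linear
group. -/
def IsQGroup (G : Set (Matrix ι ι ℂ)) : Prop :=
  (∃ P : Set (MvPolynomial (ι × ι) ℚ), ∀ g, g ∈ G ↔ g.det ≠ 0 ∧ ∀ f ∈ P, value g f = 0) ∧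
  1 ∈ G ∧ (∀ a ∈ G, ∀ b ∈ G, a * b ∈ G) ∧ ∀ a ∈ G, a⁻¹ ∈ G

/-- The complex points of the Mumford-Tate group: the smallest algebraic subgroup over `ℚ` which
contains `h z` for all `z`. -/
def mumfordTate (h : ℂ → Matrix ι ι ℂ) : Set (Matrix ι ι ℂ) :=
  {g | ∀ G, IsQGroup G → (∀ z, z ≠ 0 → h z ∈ G) → g ∈ G}

/-- The Lie algebra of the Mumford-Tate group (over the complex numbers): the tangent space at
`1`. -/
def lieMumfordTate (h : ℂ → Matrix ι ι ℂ) : Set (Matrix ι ι ℂ) :=
  {y | ∀ f : MvPolynomial (ι × ι) ℚ, (∀ m ∈ mumfordTate h, value m f = 0) →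
    ∑ x : ι × ι, y x.1 x.2 * value (1 : Matrix ι ι ℂ) (pderiv x f) = 0}

variable {ℓ : ℕ} [Fact ℓ.Prime] {Γ : Type} [Group Γ]

/-- The polynomials over the complex numbers which vanish on the image of a subgroup of finite
index (with `ℚ_ℓ` embedded by `j`): the equations of the identity component of the Zariski closure
of `ρ(Γ)`. -/
def Vanishes (j : ℚ_[ℓ] →+* ℂ) (ρ : Γ →* Matrix ι ι ℚ_[ℓ]) (f : MvPolynomial (ι × ι) ℂ) : Prop :=
  ∃ Δ : Subgroup Γ, Δ.FiniteIndex ∧ ∀ s ∈ Δ, value ((ρ s).map j) f = 0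

/-- The complex points of the identity component of the Zariski closure of `ρ(Γ)`. -/
def monodromy (j : ℚ_[ℓ] →+* ℂ) (ρ : Γ →* Matrix ι ι ℚ_[ℓ]) : Set (Matrix ι ι ℂ) :=
  {g | ∀ f, Vanishes j ρ f → value g f = 0}

/-- The complex Lie algebra of the Zariski closure of `ρ(Γ)`: the tangent space at `1`. -/
def lieMonodromy (j : ℚ_[ℓ] →+* ℂ) (ρ : Γ →* Matrix ι ι ℚ_[ℓ]) : Set (Matrix ι ι ℂ) :=
  {y | ∀ f, Vanishes j ρ f →
    ∑ x : ι × ι, y x.1 x.2 * value (1 : Matrix ι ι ℂ) (pderiv x f) = 0}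

/-- The Mumford-Tate conjecture: the two groups agree. -/
def MumfordTateConjecture (j : ℚ_[ℓ] →+* ℂ) (h : ℂ → Matrix ι ι ℂ)
    (ρ : Γ →* Matrix ι ι ℚ_[ℓ]) : Prop :=
  ∀ g : Matrix ι ι ℂ, g.det ≠ 0 → (g ∈ monodromy j ρ ↔ g ∈ mumfordTate h)

end groups

variable {κ : Type} [Fintype κ] [DecidableEq κ] {n r : ℕ}

/-- A rational Hodge structure on `ℚ^κ`: the projections `e (a, b)` to the pieces of type `(a, b)`
of `ℂ^κ`; they are exchanged by complex conjugation, and the pieces of every weight are defined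
over `ℚ`. -/
structure RationalHodgeStructure (κ : Type) [Fintype κ] [DecidableEq κ] where
  /-- the types which occur -/
  types : Finset (ℤ × ℤ)
  /-- the projections -/
  e : ℤ × ℤ → Matrix κ κ ℂ
  mul : ∀ a ∈ types, ∀ b ∈ types, e a * e b = if a = b then e a else 0
  sum : ∑ a ∈ types, e a = 1
  conj : ∀ a ∈ types, a.swap ∈ types ∧ (e a).map (starRingEnd ℂ) = e a.swap
  weight : ∀ w : ℤ, ∃ P : Matrix κ κ ℚ,
    ∑ a ∈ types with a.1 + a.2 = w, e a = P.map (algebraMap ℚ ℂ)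

/-- The action of `ℂ^×`: multiplication by `z ^ (-a) * conj z ^ (-b)` on the piece of type
`(a, b)`. -/
def RationalHodgeStructure.h (V : RationalHodgeStructure κ) (z : ℂ) : Matrix κ κ ℂ :=
  ∑ a ∈ V.types, (z ^ (-a.1) * starRingEnd ℂ z ^ (-a.2)) • V.e a

/-- The operator which is `a - b` on the piece of type `(a, b)`. -/
def RationalHodgeStructure.X (V : RationalHodgeStructure κ) : Matrix κ κ ℂ :=
  ∑ a ∈ V.types, ((a.1 - a.2 : ℤ) : ℂ) • V.e a

/-- The Lie algebra of the Mumford-Tate group of `V` has only the Hodge types `(-1,1)`, `(0,0)`,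
`(1,-1)`: the eigenvalues of the commutator with `V.X` on it are `-2`, `0`, `2`. -/
def RationalHodgeStructure.AbelianType (V : RationalHodgeStructure κ) : Prop :=
  ∀ y ∈ lieMumfordTate V.h, ⁅V.X, ⁅V.X, ⁅V.X, y⁆⁆⁆ = (4 : ℂ) • ⁅V.X, y⁆

/-- The action of `ℂ^×` on `V ⊕ T`: on `T` it is multiplication by `conj z / z`, `1`, `z / conj z`
on the parts where `T.x` is `1`, `0`, `-1`. -/
def hodge (V : RationalHodgeStructure κ) (T : HS n) (z : ℂ) :
    Matrix (κ ⊕ Fin n) (κ ⊕ Fin n) ℂ :=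
  fromBlocks (V.h z) 0 0 (1 + ((starRingEnd ℂ z / z - 1) / 2) • (T.x * T.x + T.x) +
    ((z / starRingEnd ℂ z - 1) / 2) • (T.x * T.x - T.x))

variable {ℓ : ℕ} [Fact ℓ.Prime] {Γ : Type} [Group Γ]

/-- An `ℓ`-adic integral matrix as a matrix over `ℚ_ℓ`. -/
def rat (g : Matrix (Fin n) (Fin n) ℤ_[ℓ]) : Matrix (Fin n) (Fin n) ℚ_[ℓ] :=
  g.map (algebraMap ℤ_[ℓ] ℚ_[ℓ])

/-- The representation `α ⊕ β` of the Galois group on `V ⊕ T`. -/
def galois (α : Γ →* Matrix κ κ ℚ_[ℓ]) (β : Γ →* Matrix (Fin n) (Fin n) ℤ_[ℓ]) :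
    Γ →* Matrix (κ ⊕ Fin n) (κ ⊕ Fin n) ℚ_[ℓ] where
  toFun σ := fromBlocks (α σ) 0 0 (rat (β σ))
  map_one' := (Pool.Agent.Y95.MT.tot α β).map_one
  map_mul' := (Pool.Agent.Y95.MT.tot α β).map_mul

/-- The intersection form over `ℚ_ℓ`. -/
def form (ℓ : ℕ) [Fact ℓ.Prime] (T : HS n) : Matrix (Fin n) (Fin n) ℚ_[ℓ] :=
  T.Q.map (algebraMap ℚ ℚ_[ℓ])

/-- The space `T_i ⊗ ℂ`. -/
def part (c : Fin n → Fin r) (i : Fin r) : Submodule ℂ (Fin n → ℂ) where
  carrier := {w | ∀ a, c a ≠ i → w a = 0}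
  zero_mem' := fun _ _ => rfl
  add_mem' := by
    intro x y hx hy a ha
    rw [Pi.add_apply, hx a ha, hy a ha, add_zero]
  smul_mem' := by
    intro z x hx a ha
    rw [Pi.smul_apply, hx a ha, smul_zero]

/-- A Hodge-Tate operator for the representation on `V ⊕ T`: an element `(X, D)` of the complex Lie
algebra of the Zariski closure of the image of Galois such that `D` has the eigenvalues `1`, `0`,
`-1`, the eigenvalues `1` and `-1` together with multiplicity `2 p_i` on `T_i ⊗ ℂ`, and such that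
the commutator with `X` has the eigenvalues `-1`, `0`, `1` on the Lie algebra of the Zariski
closure of the image of Galois in `GL(V)`.  Over `C_ℓ` such an operator exists by theorems of Sen
and Faltings (and of Faltings and Deligne on abelian varieties for the last property). -/
def HodgeTate (c : Fin n → Fin r) (p : Fin r → ℕ) (j : ℚ_[ℓ] →+* ℂ)
    (α : Γ →* Matrix κ κ ℚ_[ℓ]) (β : Γ →* Matrix (Fin n) (Fin n) ℤ_[ℓ]) : Prop :=
  ∃ (X : Matrix κ κ ℂ) (D : Matrix (Fin n) (Fin n) ℂ),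
    fromBlocks X 0 0 D ∈ lieMonodromy j (galois α β) ∧ D * D * D = D ∧
    (∀ i, ∑ a with c a = i, (D * D) a a = 2 * (p i : ℂ)) ∧
    ∀ y ∈ lieMonodromy j α, ⁅X, ⁅X, ⁅X, y⁆⁆⁆ = ⁅X, y⁆

/-- `T_i ⊗ ℂ` is irreducible for every subgroup of finite index of `Γ`. -/
def AbsolutelyIrreducible (c : Fin n → Fin r) (j : ℚ_[ℓ] →+* ℂ)
    (β : Γ →* Matrix (Fin n) (Fin n) ℤ_[ℓ]) (i : Fin r) : Prop :=
  ∀ Δ : Subgroup Γ, Δ.FiniteIndex → ∀ W : Submodule ℂ (Fin n → ℂ), W ≤ part c i →
    (∀ σ ∈ Δ, ∀ w ∈ W, (rat (β σ)).map j *ᵥ w ∈ W) → W = ⊥ ∨ W = part c i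

/-- There is no nonzero map `A` from `T_i ⊗ ℂ` to `T_k ⊗ ℂ` which commutes with a subgroup of finite
index of `Γ`. -/
def NoHomomorphism (c : Fin n → Fin r) (j : ℚ_[ℓ] →+* ℂ)
    (β : Γ →* Matrix (Fin n) (Fin n) ℤ_[ℓ]) (i k : Fin r) : Prop :=
  ∀ Δ : Subgroup Γ, Δ.FiniteIndex → ∀ A : Matrix (Fin n) (Fin n) ℂ,
    (∀ a b, A a b ≠ 0 → c a = k ∧ c b = i) →
    (∀ σ ∈ Δ, A * (rat (β σ)).map j = (rat (β σ)).map j * A) → A = 0

/-- **The Mumford-Tate conjecture for `V ⊕ T`, with `V` of abelian type, `p_i ≥ 2` and `p_i` prime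
to `q_i`, is equivalent to the conjecture for `V` together with: the `T_i ⊗ ℂ` are irreducible and
have no homomorphisms between them, for all subgroups of finite index.  The conjecture for `V` holds
if `V` consists of classes of type `(0, 0)` on which Galois acts through a finite group.** -/
theorem result (T : HS n) (c : Fin n → Fin r) (p q : Fin r → ℕ) (hT : T.Big c p q)
    (hp : ∀ i, 2 ≤ p i) (hpq : ∀ i, Nat.Coprime (p i) (q i))
    (V : RationalHodgeStructure κ) (hV : V.AbelianType)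
    (α : Γ →* Matrix κ κ ℚ_[ℓ]) (β : Γ →* Matrix (Fin n) (Fin n) ℤ_[ℓ])
    (hβ : ∀ σ, (rat (β σ))ᵀ * form ℓ T * rat (β σ) = form ℓ T) (hc : ∀ σ, BD c (β σ))
    (j : ℚ_[ℓ] →+* ℂ) (hHT : HodgeTate c p j α β) :
    (MumfordTateConjecture j (hodge V T) (galois α β) ↔
      MumfordTateConjecture j V.h α ∧ (∀ i, AbsolutelyIrreducible c j β i) ∧
        ∀ i k, i ≠ k → NoHomomorphism c j β i k) ∧
    (V.types = {(0, 0)} → (Set.range α).Finite → MumfordTateConjecture j V.h α) := by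
  obtain ⟨X, D, hXD, hD3, htr, hX⟩ := hHT
  exact ⟨Q43.HTM.main_HT (T := T) (c := c) (p := p) (q := q) (v := α) (β := β) (j := j) hT hp hpq
    ⟨V.types, V.e, V.mul, V.sum, V.conj, V.weight⟩ hV ⟨hβ, hc⟩ hXD hD3 htr hX,
    Q43.HTM.MTCj_types (v := α) (j := j) ⟨V.types, V.e, V.mul, V.sum, V.conj, V.weight⟩⟩

end

end Pool.Agent.Results.MP_6369ef_ag.IrreducibilityDecides
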