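import Pool.Agent.Q282.OI.MainO
import Pool.Agent.Y155.ZI.Tens

/-!
# Orthogonal motives of odd rank: the Mumford-Tate conjecture at one prime implies it at 100 percent
of the primes

Let `X` be a smooth projective variety over a number field `K` (for instance a surface with arbitrary
geometric genus) and let `V_ℓ` be, for all primes `ℓ`, the orthogonal complement of the classes of algebraic
cycles in `H^{2j}(X, ℚ_ℓ(j))`, or another direct factor of it cut out by algebraic correspondences. Then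
`V_ℓ` is an orthogonal representation of the Galois group `G_K`, with a form `B_ℓ`, its dimension `N` does
not depend on `ℓ`, and at the places `v ∉ S` the geometric Frobenius element has a characteristic
polynomial `P_v` with rational coefficients, independent of `ℓ`. Let `N = 2 m + 3` be odd (`N ≥ 3`).

**Theorem.** The following statements are equivalent:
(1) for ONE prime number `ℓ` which does not divide `2 (m + 1)` the image of `G_K` contains an open subgroup
of the orthogonal group of `B_ℓ`;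
(2) this is true for all prime numbers outside of a set of natural density zero, and there every
multilinear form in less than `N` variables on `V_ℓ` which is invariant under an open subgroup of `G_K`
is a linear combination of products of values of `B_ℓ`;
(3) (a finite check) there are places `v_0, v_1, v_2 ∉ S` with `P_{v_i} = (X - 1) Q_i` and an automorphism
`σ` of the algebraic closure of `ℚ` such that
* no root of `Q_0` is a root of unity and `x y ≠ z` for all roots `x`, `y`, `z` of `Q_0`;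
* the roots of `P_{v_1}` are simple, no quotient of two different ones is a root of unity, and `σ` permutes the
roots of `Q_1` transitively;
* no root of `Q_2` is a root of unity and `Q_0(1) Q_0(-1) Q_2(1) Q_2(-1)` is not a square.

So if the motivic Galois group is as large as the form permits, the Mumford-Tate conjecture (for instance
for the second cohomology of a surface of arbitrary geometric genus) at one prime number implies the
Mumford-Tate conjecture and the Tate conjecture for `V_ℓ` and for all classes of degree less than `N` on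
its tensor powers, over all finite extensions of `K`, at 100 percent of the primes, and this can be proved
by a computation with three Frobenius elements. Nothing is assumed about the representations at the
other primes (they could be reducible or not semisimple).

The starting file `MP_97f789_ag.ZeroOneLaw` shows that Tate subquotients exist for a set of primes of
density zero (or for all); here the whole monodromy group is determined.

Idea of the proof. From (1) to (3): the Frobenius elements are dense in the open image, so one can prescribe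
the `ℓ`-adic type of a maximal torus: a ramified torus on which tame inertia acts by a full cycle gives
`v_1` and `σ`, a general one gives `v_0`, and the classes of `Q(1) Q(-1)` modulo squares are the values of a
quadratic form, which gives `v_2`. From (3) to (2): by the zero-one law there are no Tate subquotients at
100 percent of the primes, and at the primes `ℓ` of this kind whose Frobenius class contains `σ` the
representation is irreducible and the image is open. With infinitely many such primes one constructs for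
every number field `M` a place whose Frobenius polynomial still has full cycles over `M` (local types at
several primes, and Minkowski's theorem). A prime `ℓ` at which the image is not open avoids certain classes
in the Galois groups of infinitely many independent fields which one gets in this way, so these `ℓ` have
density zero by Chebotarev's theorem.
-/

set_option autoImplicit false

namespace Pool.Agent.Results.MP_6369ef_ag.OddOrthogonalPrimeDecides

open Matrix Polynomial Filter Topology NumberField IsDedekindDomain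

/-- the absolute Galois group of `K`, with its profinite (Krull) topology -/
abbrev AbsoluteGaloisGroup (K : Type) [Field K] : Type := Gal(AlgebraicClosure K/K)

/-- `σ` is an (arithmetic) Frobenius element at the prime `v` of the number field `K`: for some prime
`Q` of the algebraic closure above `v` it acts on the residue field as `x ↦ x ^ N(v)` -/
def IsFrobenius {K : Type} [Field K] [NumberField K] (v : HeightOneSpectrum (𝓞 K))
    (σ : AbsoluteGaloisGroup K) : Prop :=
  ∃ Q : Ideal (𝓞 (AlgebraicClosure K)), Q.IsMaximal ∧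
    Q.comap (algebraMap (𝓞 K) (𝓞 (AlgebraicClosure K))) = v.asIdeal ∧
    ∀ x : 𝓞 (AlgebraicClosure K), σ • x - x ^ Ideal.absNorm v.asIdeal ∈ Q

/-- `ρ` is a continuous representation of `G_K` on `ℚ_ℓ ^ N` which preserves the nondegenerate
symmetric form with the matrix `B`, and for all `v ∉ S` which are prime to `ℓ` the characteristic
polynomial of the geometric Frobenius elements `σ⁻¹` (`σ` arithmetic) at `v` is `P v` -/
def IsOrthogonalSystem (K : Type) [Field K] [NumberField K] (N : ℕ)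
    (S : Set (HeightOneSpectrum (𝓞 K))) (P : HeightOneSpectrum (𝓞 K) → ℚ[X]) (ℓ : ℕ)
    [Fact ℓ.Prime] (ρ : AbsoluteGaloisGroup K →* Matrix (Fin N) (Fin N) ℚ_[ℓ])
    (B : Matrix (Fin N) (Fin N) ℚ_[ℓ]) : Prop :=
  Continuous ρ ∧ Bᵀ = B ∧ B.det ≠ 0 ∧ (∀ σ, (ρ σ)ᵀ * B * ρ σ = B) ∧
    ∀ v ∉ S, (ℓ : 𝓞 K) ∉ v.asIdeal → ∀ σ : AbsoluteGaloisGroup K, IsFrobenius v σ →
      (ρ σ⁻¹).charpoly = (P v).map (algebraMap ℚ ℚ_[ℓ])

/-- the image of `ρ` contains a neighbourhood of `1` in the orthogonal group of `B` -/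
def HasOpenImage {K : Type} [Field K] {N : ℕ} (ℓ : ℕ) [Fact ℓ.Prime]
    (ρ : AbsoluteGaloisGroup K →* Matrix (Fin N) (Fin N) ℚ_[ℓ])
    (B : Matrix (Fin N) (Fin N) ℚ_[ℓ]) : Prop :=
  ∃ ε : ℝ, 0 < ε ∧ ∀ g : Matrix (Fin N) (Fin N) ℚ_[ℓ], gᵀ * B * g = B →
    (∀ i j, ‖(g - 1) i j‖ < ε) → ∃ σ, ρ σ = g

/-- every multilinear form in `k < N` variables on `ℚ_ℓ ^ N` which is invariant under an open subgroup
of the Galois group is a linear combination of the products `∏ B(v_j, v_{π j})` (one factor for every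
pair `{j, π j}`), `π` a perfect matching of the variables -/
def TateTensorsFromForm {K : Type} [Field K] {N : ℕ} (ℓ : ℕ) [Fact ℓ.Prime]
    (ρ : AbsoluteGaloisGroup K →* Matrix (Fin N) (Fin N) ℚ_[ℓ])
    (B : Matrix (Fin N) (Fin N) ℚ_[ℓ]) : Prop :=
  ∀ k < N, ∀ (φ : MultilinearMap ℚ_[ℓ] (fun _ : Fin k => Fin N → ℚ_[ℓ]) ℚ_[ℓ])
    (U : Subgroup (AbsoluteGaloisGroup K)), IsOpen (U : Set (AbsoluteGaloisGroup K)) →
    (∀ σ ∈ U, ∀ v, φ (fun j => ρ σ *ᵥ v j) = φ v) →
    (fun v => φ v) ∈ Submodule.span ℚ_[ℓ] {f : (Fin k → Fin N → ℚ_[ℓ]) → ℚ_[ℓ] |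
      ∃ π : Equiv.Perm (Fin k), (∀ j, π (π j) = j) ∧ (∀ j, π j ≠ j) ∧
        ∀ v, f v = ∏ j with j < π j, (v j ⬝ᵥ B *ᵥ v (π j))}

/-- the finite data: three places `v₀`, `v₁`, `v₂` with `P v_i = (X - 1) Q_i` and an automorphism `σ` of
the algebraic closure of `ℚ` -/
def IsWitness {K : Type} [Field K] [NumberField K]
    (S : Set (HeightOneSpectrum (𝓞 K))) (P : HeightOneSpectrum (𝓞 K) → ℚ[X])
    (v₀ v₁ v₂ : HeightOneSpectrum (𝓞 K)) (Q₀ Q₁ Q₂ : ℚ[X]) (σ : AbsoluteGaloisGroup ℚ) : Prop :=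
  (v₀ ∉ S ∧ P v₀ = (X - 1) * Q₀ ∧
    (∀ n : ℕ, 0 < n → ∀ x : ℂ, aeval x Q₀ = 0 → x ^ n ≠ 1) ∧
    ∀ x y z : ℂ, aeval x Q₀ = 0 → aeval y Q₀ = 0 → aeval z Q₀ = 0 → x * y ≠ z) ∧
  (v₁ ∉ S ∧ P v₁ = (X - 1) * Q₁ ∧ (P v₁).Separable ∧
    (∀ (j : ℕ) (x y : AlgebraicClosure ℚ), 0 < j → aeval x (P v₁) = 0 → aeval y (P v₁) = 0 →
      x ^ j = y ^ j → x = y) ∧
    ∀ x y : AlgebraicClosure ℚ, aeval x Q₁ = 0 → aeval y Q₁ = 0 → ∃ k : ℕ, (σ ^ k) x = y) ∧
  v₂ ∉ S ∧ P v₂ = (X - 1) * Q₂ ∧
    (∀ n : ℕ, 0 < n → ∀ x : ℂ, aeval x Q₂ = 0 → x ^ n ≠ 1) ∧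
    ¬ IsSquare (Q₀.eval 1 * Q₀.eval (-1) * (Q₂.eval 1 * Q₂.eval (-1)))

/-- the set `A` of prime numbers has natural density zero -/
def HasDensityZero (A : Set ℕ) : Prop :=
  Tendsto (fun n : ℕ => (Nat.card {ℓ : ℕ // ℓ ≤ n ∧ ℓ ∈ A} : ℝ) / (Nat.primeCounting n : ℝ))
    atTop (𝓝 0)

/-- **One prime decides (orthogonal motives of odd rank).** -/
theorem result (K : Type) [Field K] [NumberField K] (m N : ℕ) (hN : N = 2 * m + 3)
    (S : Set (HeightOneSpectrum (𝓞 K))) (hS : S.Finite) (P : HeightOneSpectrum (𝓞 K) → ℚ[X])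
    (ρ : ∀ (ℓ : ℕ) [Fact ℓ.Prime], AbsoluteGaloisGroup K →* Matrix (Fin N) (Fin N) ℚ_[ℓ])
    (B : ∀ (ℓ : ℕ) [Fact ℓ.Prime], Matrix (Fin N) (Fin N) ℚ_[ℓ])
    (hρ : ∀ (ℓ : ℕ) [Fact ℓ.Prime], IsOrthogonalSystem K N S P ℓ (ρ ℓ) (B ℓ)) :
    List.TFAE
      [∃ ℓ : ℕ, ∃ _ : Fact ℓ.Prime, ¬ ℓ ∣ 2 * (m + 1) ∧ HasOpenImage ℓ (ρ ℓ) (B ℓ),
      HasDensityZero {ℓ | ∃ _ : Fact ℓ.Prime, ¬ (HasOpenImage ℓ (ρ ℓ) (B ℓ) ∧
        TateTensorsFromForm ℓ (ρ ℓ) (B ℓ))},
      ∃ (v₀ v₁ v₂ : HeightOneSpectrum (𝓞 K)) (Q₀ Q₁ Q₂ : ℚ[X]) (σ : AbsoluteGaloisGroup ℚ),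
        IsWitness S P v₀ v₁ v₂ Q₀ Q₁ Q₂ σ] := by
  subst hN
  have hTENS : Y142.ZI.S_TENS := Y155.ZI.t
  have hCAY : Y142.ZI.S_CAY := Q153.OI.CAY.t
  have key := Q282.OI.odd (K := K) (S := S) (P := P) hS ρ B hρ
  have h12 := key.out 0 1
  have h13 := key.out 0 2
  have htens : ∀ (ℓ : ℕ) [Fact ℓ.Prime], HasOpenImage ℓ (ρ ℓ) (B ℓ) →
      TateTensorsFromForm ℓ (ρ ℓ) (B ℓ) := by
    intro ℓ _ ho k hk φ U hU hφ
    exact hTENS ℓ _ _ (ρ ℓ) (hρ ℓ).1 (B ℓ) (hρ ℓ).2.1 (hρ ℓ).2.2.1
      (hCAY ℓ _ _ (ρ ℓ) (B ℓ) (hρ ℓ).2.1 (hρ ℓ).2.2.1 ho) k φ U hk hU hφ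
  have hco : ∀ Q : ℚ[X], (∀ n : ℕ, 0 < n → IsCoprime Q (X ^ n - 1)) →
      ∀ n : ℕ, 0 < n → ∀ x : ℂ, aeval x Q = 0 → x ^ n ≠ 1 := by
    intro Q h n hn x hx h1
    obtain ⟨a, b, hab⟩ := h n hn
    have := congrArg (aeval x) hab
    simp [hx, h1] at this
  tfae_have 1 ↔ 2 := by
    refine h12.trans ?_
    have hset : {ℓ : ℕ | ∃ _ : Fact ℓ.Prime, ¬ Y142.ZI.OpenImage ℓ (ρ ℓ) (B ℓ)} =
        {ℓ | ∃ _ : Fact ℓ.Prime, ¬ (HasOpenImage ℓ (ρ ℓ) (B ℓ) ∧
          TateTensorsFromForm ℓ (ρ ℓ) (B ℓ))} := by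
      ext ℓ
      constructor
      · rintro ⟨hp, h⟩
        exact ⟨hp, fun h' => h h'.1⟩
      · rintro ⟨hp, h⟩
        exact ⟨hp, fun h' => h ⟨h', htens ℓ h'⟩⟩
    rw [hset]
    exact Iff.rfl
  tfae_have 1 ↔ 3 := by
    refine h13.trans ?_
    constructor
    · rintro ⟨v₀, v₁, v₂, Q₀, Q₁, Q₂, σ, ⟨a1, a2, a3, a4⟩, hb, c1, c2, c3, c4⟩
      exact ⟨v₀, v₁, v₂, Q₀, Q₁, Q₂, σ, ⟨a1, a2, hco _ a3, a4⟩, hb, c1, c2, hco _ c3, c4⟩
    · rintro ⟨v₀, v₁, v₂, Q₀, Q₁, Q₂, σ, ⟨a1, a2, a3, a4⟩, hb, c1, c2, c3, c4⟩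
      exact ⟨v₀, v₁, v₂, Q₀, Q₁, Q₂, σ,
        ⟨a1, a2, fun n hn => Y142.ZO.coprime_of_roots a3 n hn, a4⟩, hb, c1, c2,
        fun n hn => Y142.ZO.coprime_of_roots c3 n hn, c4⟩
  tfae_finish

end Pool.Agent.Results.MP_6369ef_ag.OddOrthogonalPrimeDecides
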