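import Mathlib
import Pool.Agent.Q43.TB.Pair
import Pool.Agent.Q43.TB.Min

/-!
# The Mumford-Tate conjecture for motives of level two from the places of bad reduction

`T = T_1 ⊕ ... ⊕ T_r` is a polarised rational Hodge structure of level two, twisted to weight zero
(for example the transcendental part of `H^2(X)(1)`, `X` a surface over `ℚ`; `c a` says to which
summand the `a`-th basis vector belongs), and `V` is a rational Hodge structure for which the Lie
algebra of the Mumford-Tate group has only the Hodge types `(-1,1)`, `(0,0)`, `(1,-1)` (for example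
the algebraic classes in `H^2(X)(1)`, or any Hodge structure in the tensor category generated by the
`H^1` of abelian varieties).  The Hodge numbers of `T_i` are `(p_i, q_i, p_i)`, with `p_i ≥ 2` prime
to `q_i` (see `T.Big` in the starting files, which also contains
`2 p_i^2 (p_i^2 + 1) < (q_i - 2 p_i) (q_i + p_i)` and: all endomorphisms of `T` are rational scalars
on the `T_i`).  The absolute Galois group `Γ` of `ℚ` acts on the `ℓ`-adic realizations by `α` and
`β`.

The theorem deduces the Mumford-Tate conjecture for `V ⊕ T` from the conjecture for `V` and from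
the action of the inertia groups on the `T_i` alone.  Let `N_i = 2 p_i + q_i` be the rank of `T_i`.

* `TameConditions`: at a place of tame reduction with `q` elements in the residue field, a
  generator `τ` of tame inertia and a Frobenius element `φ` satisfy `φ τ φ^{-1} = τ^q`, so the
  eigenvalues of `τ` on a stable subspace are permuted by `x ↦ x^q`.  It is enough that for each
  `d` with `0 < d < N_i` there is a place (which may depend on `d`) such that this is impossible for
  subspaces of dimension `d`.  (If `N_i` is odd then `1` or `-1` is always an eigenvalue; then we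
  suppose it for `1 < d < N_i - 1`, a condition on the eigenvalues `1` and `-1`, and that there is no
  `v ≠ 0` with `σ v = v` or `σ v = -v` for each `σ`, a case of the Tate conjecture for divisors.)
* `Admissible`: all elements `σ` of the inertia groups are unipotent, or in a group with a
  connected Zariski closure (semistable reduction, also at `ℓ`), or have a power of this kind with
  an exponent prime to `N_i !`; or they are near to a scalar matrix (see the definition; for
  example reflections, if `T_i` is not potentially abelian).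
* `DifferentRoots`, only if two of the `T_i` have the same rank.

**Theorem.** Then the `T_i ⊗ ℂ` are irreducible for all subgroups of finite index, and the
Mumford-Tate conjecture for `V ⊕ T` is equivalent to the conjecture for `V`.  In particular the
Mumford-Tate conjecture holds for `V ⊕ T` if `V` consists of classes of type `(0, 0)` on which Galois
acts through a finite group (the algebraic classes, for `H^2(X)`).

**Example.** Let `N = s - 1` be the rank of `T = T_1`, `s` an odd prime number.  Suppose that `T` is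
semistable outside one prime number `p`, that `p` is a primitive root modulo `s`, and that the
inertia group at `p` acts on `T` through a group of order `s`.  Then the theorem applies at all
`ℓ ≠ p`: the roots of the characteristic polynomial of `τ` are stable under `x ↦ x^p`, so they are
the primitive `s`-th roots of unity, all simple, and permuted transitively; and `s` is prime to
`N !`.  No Frobenius polynomial at a place of good reduction is used, so this gives the conjecture
for all `ℓ ≠ p` at once.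

The field `C_ℓ` is identified with the complex numbers by an embedding `j` of `ℚ_ℓ`; the other
input is the Hodge-Tate decomposition, which always exists (`HodgeTate`).
-/

set_option autoImplicit false

namespace Pool.Agent.Results.MP_6369ef_ag.TameBadPlaces

open MvPolynomial Matrix NumberField
open Pool.Agent.W544.PG (HS BD)

noncomputable section

section groups

variable {ι : Type} [Fintype ι] [DecidableEq ι]

/-- The value of a polynomial in the entries at a matrix. -/
def value {F : Type} [CommRing F] [Algebra F ℂ] (g : Matrix ι ι ℂ)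
    (f : MvPolynomial (ι × ι) F) : ℂ :=
  aeval (fun q : ι × ι => g q.1 q.2) f

/-- `G` is the set of complex points of an algebraic subgroup over `ℚ` of the general linear
group. -/
def IsQGroup (G : Set (Matrix ι ι ℂ)) : Prop :=
  (∃ P : Set (MvPolynomial (ι × ι) ℚ), ∀ g, g ∈ G ↔ g.det ≠ 0 ∧ ∀ f ∈ P, value g f = 0) ∧
  1 ∈ G ∧ (∀ a ∈ G, ∀ b ∈ G, a * b ∈ G) ∧ ∀ a ∈ G, a⁻¹ ∈ G

/-- The complex points of the Mumford-Tate group: the smallest algebraic subgroup over `ℚ` which
contains `h z` for all `z`. -/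
def mumfordTate (h : ℂ → Matrix ι ι ℂ) : Set (Matrix ι ι ℂ) :=
  {g | ∀ G, IsQGroup G → (∀ z, z ≠ 0 → h z ∈ G) → g ∈ G}

/-- The Lie algebra of the Mumford-Tate group (over the complex numbers): the tangent space at
`1`. -/
def lieMumfordTate (h : ℂ → Matrix ι ι ℂ) : Set (Matrix ι ι ℂ) :=
  {y | ∀ f : MvPolynomial (ι × ι) ℚ, (∀ m ∈ mumfordTate h, value m f = 0) →
    ∑ x : ι × ι, y x.1 x.2 * value (1 : Matrix ι ι ℂ) (pderiv x f) = 0}

variable {ℓ : ℕ} [Fact ℓ.Prime] {Γ : Type} [Group Γ]

/-- The polynomials over the complex numbers which vanish on the image of a subgroup of finite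
index (with `ℚ_ℓ` embedded by `j`): the equations of the identity component of the Zariski closure
of `ρ(Γ)`. -/
def Vanishes (j : ℚ_[ℓ] →+* ℂ) (ρ : Γ →* Matrix ι ι ℚ_[ℓ]) (f : MvPolynomial (ι × ι) ℂ) : Prop :=
  ∃ Δ : Subgroup Γ, Δ.FiniteIndex ∧ ∀ s ∈ Δ, value ((ρ s).map j) f = 0

/-- The complex points of the identity component of the Zariski closure of `ρ(Γ)`. -/
def monodromy (j : ℚ_[ℓ] →+* ℂ) (ρ : Γ →* Matrix ι ι ℚ_[ℓ]) : Set (Matrix ι ι ℂ) :=
  {g | ∀ f, Vanishes j ρ f → value g f = 0}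

/-- The complex Lie algebra of the Zariski closure of `ρ(Γ)`: the tangent space at `1`. -/
def lieMonodromy (j : ℚ_[ℓ] →+* ℂ) (ρ : Γ →* Matrix ι ι ℚ_[ℓ]) : Set (Matrix ι ι ℂ) :=
  {y | ∀ f, Vanishes j ρ f →
    ∑ x : ι × ι, y x.1 x.2 * value (1 : Matrix ι ι ℂ) (pderiv x f) = 0}

/-- The Mumford-Tate conjecture: the two groups agree. -/
def MumfordTateConjecture (j : ℚ_[ℓ] →+* ℂ) (h : ℂ → Matrix ι ι ℂ)
    (ρ : Γ →* Matrix ι ι ℚ_[ℓ]) : Prop :=
  ∀ g : Matrix ι ι ℂ, g.det ≠ 0 → (g ∈ monodromy j ρ ↔ g ∈ mumfordTate h)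

end groups

variable {κ : Type} [Fintype κ] [DecidableEq κ] {n r : ℕ}

/-- A rational Hodge structure on `ℚ^κ`: the projections `e (a, b)` to the pieces of type `(a, b)`
of `ℂ^κ`; they are exchanged by complex conjugation, and the pieces of every weight are defined
over `ℚ`. -/
structure RationalHodgeStructure (κ : Type) [Fintype κ] [DecidableEq κ] where
  /-- the types which occur -/
  types : Finset (ℤ × ℤ)
  /-- the projections -/
  e : ℤ × ℤ → Matrix κ κ ℂ
  mul : ∀ a ∈ types, ∀ b ∈ types, e a * e b = if a = b then e a else 0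
  sum : ∑ a ∈ types, e a = 1
  conj : ∀ a ∈ types, a.swap ∈ types ∧ (e a).map (starRingEnd ℂ) = e a.swap
  weight : ∀ w : ℤ, ∃ P : Matrix κ κ ℚ,
    ∑ a ∈ types with a.1 + a.2 = w, e a = P.map (algebraMap ℚ ℂ)

/-- The action of `ℂ^×`: multiplication by `z ^ (-a) * conj z ^ (-b)` on the piece of type
`(a, b)`. -/
def RationalHodgeStructure.h (V : RationalHodgeStructure κ) (z : ℂ) : Matrix κ κ ℂ :=
  ∑ a ∈ V.types, (z ^ (-a.1) * starRingEnd ℂ z ^ (-a.2)) • V.e a

/-- The operator which is `a - b` on the piece of type `(a, b)`. -/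
def RationalHodgeStructure.X (V : RationalHodgeStructure κ) : Matrix κ κ ℂ :=
  ∑ a ∈ V.types, ((a.1 - a.2 : ℤ) : ℂ) • V.e a

/-- The Lie algebra of the Mumford-Tate group of `V` has only the Hodge types `(-1,1)`, `(0,0)`,
`(1,-1)`: the eigenvalues of the commutator with `V.X` on it are `-2`, `0`, `2`. -/
def RationalHodgeStructure.AbelianType (V : RationalHodgeStructure κ) : Prop :=
  ∀ y ∈ lieMumfordTate V.h, ⁅V.X, ⁅V.X, ⁅V.X, y⁆⁆⁆ = (4 : ℂ) • ⁅V.X, y⁆

/-- The action of `ℂ^×` on `V ⊕ T`: on `T` it is multiplication by `conj z / z`, `1`, `z / conj z`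
on the parts where `T.x` is `1`, `0`, `-1`. -/
def hodge (V : RationalHodgeStructure κ) (T : HS n) (z : ℂ) :
    Matrix (κ ⊕ Fin n) (κ ⊕ Fin n) ℂ :=
  fromBlocks (V.h z) 0 0 (1 + ((starRingEnd ℂ z / z - 1) / 2) • (T.x * T.x + T.x) +
    ((z / starRingEnd ℂ z - 1) / 2) • (T.x * T.x - T.x))

variable {ℓ : ℕ} [Fact ℓ.Prime] {Γ : Type} [Group Γ]

/-- An `ℓ`-adic integral matrix as a matrix over `ℚ_ℓ`. -/
def rat (g : Matrix (Fin n) (Fin n) ℤ_[ℓ]) : Matrix (Fin n) (Fin n) ℚ_[ℓ] :=
  g.map (algebraMap ℤ_[ℓ] ℚ_[ℓ])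

/-- The representation `α ⊕ β` of the Galois group on `V ⊕ T`. -/
def galois (α : Γ →* Matrix κ κ ℚ_[ℓ]) (β : Γ →* Matrix (Fin n) (Fin n) ℤ_[ℓ]) :
    Γ →* Matrix (κ ⊕ Fin n) (κ ⊕ Fin n) ℚ_[ℓ] where
  toFun σ := fromBlocks (α σ) 0 0 (rat (β σ))
  map_one' := (Pool.Agent.Y95.MT.tot α β).map_one
  map_mul' := (Pool.Agent.Y95.MT.tot α β).map_mul

/-- The intersection form over `ℚ_ℓ`. -/
def form (ℓ : ℕ) [Fact ℓ.Prime] (T : HS n) : Matrix (Fin n) (Fin n) ℚ_[ℓ] :=
  T.Q.map (algebraMap ℚ ℚ_[ℓ])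

/-- The space `T_i ⊗ ℂ`. -/
def part (c : Fin n → Fin r) (i : Fin r) : Submodule ℂ (Fin n → ℂ) where
  carrier := {w | ∀ a, c a ≠ i → w a = 0}
  zero_mem' := fun _ _ => rfl
  add_mem' := by
    intro x y hx hy a ha
    rw [Pi.add_apply, hx a ha, hy a ha, add_zero]
  smul_mem' := by
    intro z x hx a ha
    rw [Pi.smul_apply, hx a ha, smul_zero]

/-- A Hodge-Tate operator for the representation on `V ⊕ T`: an element `(X, D)` of the complex Lie
algebra of the Zariski closure of the image of Galois such that `D` has the eigenvalues `1`, `0`,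
`-1`, the eigenvalues `1` and `-1` together with multiplicity `2 p_i` on `T_i ⊗ ℂ`, and such that
the commutator with `X` has the eigenvalues `-1`, `0`, `1` on the Lie algebra of the Zariski
closure of the image of Galois in `GL(V)`.  Over `C_ℓ` such an operator exists by theorems of Sen
and Faltings (and of Faltings and Deligne on abelian varieties for the last property). -/
def HodgeTate (c : Fin n → Fin r) (p : Fin r → ℕ) (j : ℚ_[ℓ] →+* ℂ)
    (α : Γ →* Matrix κ κ ℚ_[ℓ]) (β : Γ →* Matrix (Fin n) (Fin n) ℤ_[ℓ]) : Prop :=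
  ∃ (X : Matrix κ κ ℂ) (D : Matrix (Fin n) (Fin n) ℂ),
    fromBlocks X 0 0 D ∈ lieMonodromy j (galois α β) ∧ D * D * D = D ∧
    (∀ i, ∑ a with c a = i, (D * D) a a = 2 * (p i : ℂ)) ∧
    ∀ y ∈ lieMonodromy j α, ⁅X, ⁅X, ⁅X, y⁆⁆⁆ = ⁅X, y⁆

/-- `T_i ⊗ ℂ` is irreducible for every subgroup of finite index of `Γ`. -/
def AbsolutelyIrreducible (c : Fin n → Fin r) (j : ℚ_[ℓ] →+* ℂ)
    (β : Γ →* Matrix (Fin n) (Fin n) ℤ_[ℓ]) (i : Fin r) : Prop :=
  ∀ Δ : Subgroup Γ, Δ.FiniteIndex → ∀ W : Submodule ℂ (Fin n → ℂ), W ≤ part c i →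
    (∀ σ ∈ Δ, ∀ w ∈ W, (rat (β σ)).map j *ᵥ w ∈ W) → W = ⊥ ∨ W = part c i

/-- The matrix of `σ` on `T_i ⊗ ℂ`. -/
def block (c : Fin n → Fin r) (j : ℚ_[ℓ] →+* ℂ) (β : Γ →* Matrix (Fin n) (Fin n) ℤ_[ℓ])
    (i : Fin r) (σ : Γ) : Matrix {a // c a = i} {a // c a = i} ℂ :=
  ((rat (β σ)).map j).submatrix (fun a => a.1) (fun a => a.1)

/-- Every subspace of `T_i ⊗ ℂ` which is stable under the intersection of `J` with a subgroup of
finite index is stable under `J`.  This is so if the Zariski closure of the image of `J` in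
`GL(T_i)` is connected. -/
def Connected (c : Fin n → Fin r) (j : ℚ_[ℓ] →+* ℂ) (β : Γ →* Matrix (Fin n) (Fin n) ℤ_[ℓ])
    (i : Fin r) (J : Subgroup Γ) : Prop :=
  ∀ Δ : Subgroup Γ, Δ.FiniteIndex → ∀ W : Submodule ℂ (Fin n → ℂ), W ≤ part c i →
    (∀ σ ∈ J, σ ∈ Δ → ∀ w ∈ W, (rat (β σ)).map j *ᵥ w ∈ W) →
      ∀ σ ∈ J, ∀ w ∈ W, (rat (β σ)).map j *ᵥ w ∈ W

/-- A subgroup of finite index acts on `T_i` through a commutative group. -/
def PotentiallyAbelian (c : Fin n → Fin r) (j : ℚ_[ℓ] →+* ℂ)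
    (β : Γ →* Matrix (Fin n) (Fin n) ℤ_[ℓ]) (i : Fin r) : Prop :=
  ∃ Δ : Subgroup Γ, Δ.FiniteIndex ∧ ∀ σ ∈ Δ, ∀ τ ∈ Δ,
    block c j β i σ * block c j β i τ = block c j β i τ * block c j β i σ

/-- The condition on the elements `σ` of the inertia groups; `N` is the rank of `T_i`: some `σ^m`
is in a subgroup which is `Connected`, and for all `d ∣ N`, `L ∣ m` with `L ≥ 2`, `L d ≤ N`
the rank of some `σ - z` on `T_i` is `< (L - 1) d` (for `d = 1` only if `T_i` is potentially
abelian). -/
def Admissible (c : Fin n → Fin r) (j : ℚ_[ℓ] →+* ℂ) (β : Γ →* Matrix (Fin n) (Fin n) ℤ_[ℓ])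
    (i : Fin r) (N : ℕ) (σ : Γ) : Prop :=
  ∃ m : ℕ, (∃ J : Subgroup Γ, Connected c j β i J ∧ σ ^ m ∈ J) ∧
    ∀ L d : ℕ, 2 ≤ L → L ∣ m → d ∣ N → L * d ≤ N → (d = 1 → PotentiallyAbelian c j β i) →
      ∃ z : ℂ, (block c j β i σ - z • 1).rank < (L - 1) * d

/-- No multiset of `d` roots of `P` (with multiplicities) is mapped to itself by `x ↦ x ^ q`. -/
def NoStable (P : Polynomial ℂ) (q d : ℕ) : Prop :=
  ∀ R : Multiset ℂ, R ≤ P.roots → Multiset.card R = d → (R.map fun x => x ^ q) ≠ R

/-- The tame relation `φ τ = τ ^ q φ` holds on `T_i ⊗ ℂ`. -/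
def Tame (c : Fin n → Fin r) (j : ℚ_[ℓ] →+* ℂ) (β : Γ →* Matrix (Fin n) (Fin n) ℤ_[ℓ])
    (i : Fin r) (τ φ : Γ) (q : ℕ) : Prop :=
  block c j β i (φ * τ) = block c j β i (τ ^ q * φ)

/-- The conditions on the places of bad reduction; `N` is the rank of `T_i`: either for all `d`
with `0 < d < N` there are elements with the tame relation such that no `d` roots of the
characteristic polynomial of `τ` are stable under `x ↦ x ^ q`; or the same for `1 < d < N - 1`, the
roots with `x ^ q = x` for one such pair are simple and equal to `1` or `-1`, and no vector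
`v ≠ 0` is mapped to `v` or `-v` by each `σ`. -/
def TameConditions (c : Fin n → Fin r) (j : ℚ_[ℓ] →+* ℂ) (β : Γ →* Matrix (Fin n) (Fin n) ℤ_[ℓ])
    (i : Fin r) (N : ℕ) : Prop :=
  (∀ d, 0 < d → d < N → ∃ (τ φ : Γ) (q : ℕ), Tame c j β i τ φ q ∧
    NoStable (block c j β i τ).charpoly q d) ∨
  ((∀ d, 1 < d → d + 1 < N → ∃ (τ φ : Γ) (q : ℕ), Tame c j β i τ φ q ∧
    NoStable (block c j β i τ).charpoly q d) ∧
  (∃ (τ φ : Γ) (q : ℕ), Tame c j β i τ φ q ∧
    ∀ x, (block c j β i τ).charpoly.IsRoot x → x ^ q = x →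
      x * x = 1 ∧ (block c j β i τ).charpoly.rootMultiplicity x = 1) ∧
  ∀ v : {a // c a = i} → ℂ, (∀ σ, block c j β i σ *ᵥ v = v ∨ block c j β i σ *ᵥ v = -v) → v = 0)

/-- Some `σ` has an eigenvalue `x` on `T_i` such that `x` and `-x` are not eigenvalues on `T_k`. -/
def DifferentRoots (c : Fin n → Fin r) (j : ℚ_[ℓ] →+* ℂ)
    (β : Γ →* Matrix (Fin n) (Fin n) ℤ_[ℓ]) (i k : Fin r) : Prop :=
  ∃ (σ : Γ) (x : ℂ), (block c j β i σ).charpoly.IsRoot x ∧
    ¬ (block c j β k σ).charpoly.IsRoot x ∧ ¬ (block c j β k σ).charpoly.IsRoot (-x)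

/-- The absolute Galois group of `ℚ` (with the Krull topology). -/
abbrev Galois : Type := Gal(AlgebraicClosure ℚ/ℚ)

/-- `σ` is in the inertia group of the ideal `P` of the ring of all algebraic integers. -/
def Inertia (P : Ideal (𝓞 (AlgebraicClosure ℚ))) (σ : Galois) : Prop :=
  ∀ x : 𝓞 (AlgebraicClosure ℚ), σ • x - x ∈ P

/-- **The Mumford-Tate conjecture from the places of bad reduction**: if all elements of the
inertia groups are admissible, the tame conditions hold for all `T_i`, and `T_i`, `T_k` of the same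
rank have different roots, then the `T_i ⊗ ℂ` are irreducible for all subgroups of finite index, the
Mumford-Tate conjecture for `V ⊕ T` is equivalent to the conjecture for `V`, and it holds if `V`
consists of classes of type `(0, 0)` on which Galois acts through a finite group. -/
theorem result (T : HS n) (c : Fin n → Fin r) (p q : Fin r → ℕ) (hT : T.Big c p q)
    (hp : ∀ i, 2 ≤ p i) (hpq : ∀ i, Nat.Coprime (p i) (q i))
    (V : RationalHodgeStructure κ) (hV : V.AbelianType)
    (α : Galois →* Matrix κ κ ℚ_[ℓ]) (β : Galois →* Matrix (Fin n) (Fin n) ℤ_[ℓ])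
    (hβc : Continuous β)
    (hβ : ∀ σ, (rat (β σ))ᵀ * form ℓ T * rat (β σ) = form ℓ T) (hc : ∀ σ, BD c (β σ))
    (j : ℚ_[ℓ] →+* ℂ) (hHT : HodgeTate c p j α β)
    (hI : ∀ P : Ideal (𝓞 (AlgebraicClosure ℚ)), P.IsMaximal → ∀ σ, Inertia P σ →
      ∀ i, Admissible c j β i (2 * p i + q i) σ)
    (hW : ∀ i, TameConditions c j β i (2 * p i + q i))
    (hD : ∀ i k, i ≠ k → 2 * p i + q i = 2 * p k + q k → DifferentRoots c j β i k) :
    (∀ i, AbsolutelyIrreducible c j β i) ∧
    (MumfordTateConjecture j (hodge V T) (galois α β) ↔ MumfordTateConjecture j V.h α) ∧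
    (V.types = {(0, 0)} → (Set.range α).Finite →
      MumfordTateConjecture j (hodge V T) (galois α β)) := by
  obtain ⟨X, D, hXD, hD3, htr, hX⟩ := hHT
  have hg : Pool.Agent.Y95.MT.GalT c T.Q β := ⟨hβ, hc⟩
  have hcard : ∀ i, Fintype.card {a // c a = i} = 2 * p i + q i := by
    intro i
    rw [Fintype.card_subtype, ← hT.rk i]
  have hB : ∀ i, Q43.TB.IrrB c (Q43.HTM.Rj β j) i := fun i =>
    Q43.TB.irrB_tame hg hT.bQ (by rw [hcard]; exact hW i)
  have hI' : ∀ i, Q43.HTM.Irr c (Q43.HTM.Rj β j) i := fun i =>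
    Q43.TB.irr_of_gen hβc hg hT.bQ (Q43.TB.gen_rat fun P hP σ hσ => hI P hP σ hσ i) (hcard i)
      (by have := hp i; omega) (hpq i) (Q43.HTM.mem_LieM.1 hXD) hD3 (htr i) (hB i)
  have hN : ∀ i k, i ≠ k → Q43.HTM.NonIso c (Q43.HTM.Rj β j) i k := fun i k hik =>
    Q43.TB.noniso_of_twist hg hT.bQ (hI' i) (hI' k)
      (Q43.TB.twist_of_roots (fun s => hg.bdK j s) (hB i) (hB k)
        (by rw [hcard, hcard]; exact hD i k hik))
  have hmain : MumfordTateConjecture j (hodge V T) (galois α β) ↔ MumfordTateConjecture j V.h α := by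
    have h := Q43.HTM.main_HT (T := T) (c := c) (p := p) (q := q) (v := α) (β := β) (j := j) hT hp
      hpq ⟨V.types, V.e, V.mul, V.sum, V.conj, V.weight⟩ hV hg hXD hD3 htr hX
    exact ⟨fun h1 => (h.1 h1).1, fun h1 => h.2 ⟨h1, hI', hN⟩⟩
  refine ⟨hI', hmain, fun h1 h2 => hmain.2 ?_⟩
  exact Q43.HTM.MTCj_types (v := α) (j := j) ⟨V.types, V.e, V.mul, V.sum, V.conj, V.weight⟩ h1 h2

end

end Pool.Agent.Results.MP_6369ef_ag.TameBadPlaces
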