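import Pool.Agent.Q45.OI.VSCore
import Pool.Agent.Q45.OI.K.LC
import Pool.Agent.Q45.OI.J.CLIFF
import Pool.Agent.Q45.OI.J.COMM

/-!
# Double planes with a very simple Galois module on the branch curve

Let `k` be a field of characteristic different from `2`, with separable closure `k'`, and let
`P(t, x)` be a polynomial over `k`, monic of odd degree in `x`, such that the plane curve
`C : P(t, x) = 0` is smooth, irreducible over `k'` and separable over the `t`-line. Let `X` be the
double plane `w ^ 2 = P(t, x)` with branch curve `C`, `J` the Jacobian of the hyperelliptic curve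
`w ^ 2 = P(t, x)` over `K = k(t)`, `F = k'(t)`, and `M` the `ℤ_2`-module of the classes of the
continuous cocycles of `Gal(Sep F / F)` with values in the Tate module `T_2 J` which are locally trivial
at all the maximal ideals of `k'[t]`. The group of the automorphisms of the separable closure of `F` over
`K` acts on `M`, through `Gal(k' / k)`.

Let `S` be the ring of the functions on `C` over `k'`, `L` its field of fractions, and `V` the group of
the elements of `Lˣ` whose fractional ideal is a square, modulo the squares; if `C` has a single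
place at infinity then `V` is the group of the points of order `2` of the Jacobian of `C`. Suppose that
`V` is finite, and let `Γ` be the group of the automorphisms of `V` induced by the automorphisms of `L`
which fix the polynomials in `t` and `x` over `k`.

Suppose that `V` is very simple in the sense of Zarhin: the rings of endomorphisms of `V` which are
stable under conjugation by `Γ` are `{0, 1}` and the ring of all endomorphisms. Then one of the
following holds.

(1) For some finite extension `E` of `k` in `k'`, the automorphisms which fix `E` act on `M` as scalars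
in `ℤ_2`, and these scalars are `1` or `-1` if `M` has an invariant symmetric bilinear form different
from zero.

(2) The representation `ℚ_2 ⊗ M` is absolutely irreducible over ALL the finite extensions `E` of `k`: each
submodule of `M` which is stable under the automorphisms which fix `E` is zero or of finite index, and
the endomorphisms of `M` which commute with them are the elements of `ℤ_2`.
-/

set_option autoImplicit false
set_option linter.all false

open Polynomial IsDedekindDomain
open scoped Classical nonZeroDivisors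

namespace Pool.Agent.Results.MP_6369ef_ag.VerySimpleBranchCurves

open Pool.Agent.Y160.SL
open Pool.Agent.TH115.GD (rs ak Sep Comp)

/-- The derivative with respect to `t` of the polynomial `P(t, x)` in `k[t][x]`. -/
noncomputable def derivT {k : Type} [Field k] (P : k[X][X]) : k[X][X] :=
  P.sum fun i a => C (derivative a) * X ^ i

/-- The conditions on the curve `P(t, x) = 0` over `k`: `P` is monic of odd degree in `x`, the curve is
smooth and separable over the `t`-line. -/
structure IsSmoothCurve {k : Type} [Field k] (P : k[X][X]) : Prop where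
  two : (2 : k) ≠ 0
  monic : P.Monic
  odd : Odd P.natDegree
  separable : derivative P ≠ 0
  smooth : ∃ a₁ a₂ a₃ : k[X][X], a₁ * P + a₂ * derivative P + a₃ * derivT P = 1

/-- The polynomial `P(t, x)` over `k'`. -/
noncomputable def extendPoly {k : Type} [Field k] (k' : Type) [Field k'] [Algebra k k']
    (P : k[X][X]) : k'[X][X] := P.map (mapRingHom (algebraMap k k'))

/-- The ring of the functions on the curve `P(t, x) = 0` over `k'`. -/
abbrev CurveRing {k : Type} [Field k] (k' : Type) [Field k'] [Algebra k k'] (P : k[X][X]) : Type :=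
  AdjoinRoot (extendPoly k' P)

/-- The polynomial `P(t, x)` over the field `K` which contains `k[t]`. -/
noncomputable def fPoly {k : Type} [Field k] (P : k[X][X]) (K : Type) [Field K] [Algebra k[X] K] :
    K[X] := P.map (algebraMap k[X] K)

section curve

/-- The elements of `Lˣ` whose fractional ideal is a square. -/
def evenGroup (S L : Type) [CommRing S] [IsDedekindDomain S] [Field L] [Algebra S L]
    [IsFractionRing S L] : Subgroup Lˣ where
  carrier := {z | ∃ I : FractionalIdeal S⁰ L, FractionalIdeal.spanSingleton S⁰ (z : L) = I ^ 2}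
  mul_mem' := (Pool.Agent.Q45.GM.evS S L).mul_mem'
  one_mem' := (Pool.Agent.Q45.GM.evS S L).one_mem'
  inv_mem' := (Pool.Agent.Q45.GM.evS S L).inv_mem'

/-- The squares. -/
def squares (L : Type) [Field L] : Subgroup Lˣ := (powMonoidHom 2 : Lˣ →* Lˣ).range

variable {k : Type} [Field k] (k' : Type) [Field k'] [Algebra k k'] (P : k[X][X])
  (L : Type) [Field L] [Algebra (CurveRing k' P) L]

/-- The automorphism `e` of `L` fixes the polynomials in `t` and `x` over `k`. -/
def FixesPolys (e : L ≃+* L) : Prop :=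
  ∀ p : k[X][X], e (algebraMap (CurveRing k' P) L (AdjoinRoot.mk _ (extendPoly k' p))) =
    algebraMap (CurveRing k' P) L (AdjoinRoot.mk _ (extendPoly k' p))

/-- The automorphisms of `Lˣ` induced by the automorphisms of `L` which fix the polynomials in `t` and
`x` over `k`. -/
def autUnits : Set (Lˣ →* Lˣ) :=
  {φ | ∃ e : L ≃+* L, FixesPolys k' P L e ∧ φ = Units.map (e : L →* L)}

end curve

/-- The finite group `V` is the quotient `Ev / Sq`, through the map `cl`, and `Γ` is the group of the
automorphisms of `V` which are induced by the endomorphisms in `E`. -/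
structure IsGaloisModule {H : Type} [CommGroup H] (Sq Ev : Subgroup H) (E : Set (H →* H)) {V : Type}
    [AddCommGroup V] (cl : H → V) (Γ : Subgroup (AddMonoid.End V)ˣ) : Prop where
  add : ∀ z ∈ Ev, ∀ w ∈ Ev, cl (z * w) = cl z + cl w
  zero : ∀ z ∈ Ev, cl z = 0 ↔ z ∈ Sq
  surj : ∀ v, ∃ z ∈ Ev, cl z = v
  toGroup : ∀ e ∈ E, ∃ g ∈ Γ, ∀ z ∈ Ev, cl (e z) = g.val (cl z)
  ofGroup : ∀ g ∈ Γ, ∃ e ∈ E, ∀ z ∈ Ev, cl (e z) = g.val (cl z)

section large

variable {V : Type} [AddCommGroup V] (Γ : Subgroup (AddMonoid.End V)ˣ)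

/-- The endomorphism `A` is `0` or `1`. -/
def IsScalar (A : V →+ V) : Prop := (∀ v, A v = 0) ∨ ∀ v, A v = v

/-- The rings of endomorphisms of `V` which are stable under conjugation by `Γ` are `{0, 1}` and the ring of
all endomorphisms. -/
def IsVerySimple : Prop :=
  ∀ R : Subring (AddMonoid.End V),
    (∀ g ∈ Γ, ∀ A ∈ R, ∀ A' : AddMonoid.End V, (∀ v, A' (g.val v) = g.val (A v)) → A' ∈ R) →
      (∀ A ∈ R, IsScalar A) ∨ R = ⊤

end large

section gen

variable {K F Ω : Type} [Field K] [Field F] [Field Ω] [Algebra K F] [Algebra F Ω] [Algebra K Ω]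
  [IsScalarTower K F Ω] (f : K[X])

/-- The sequences of cochains of `Gal(Ω / F)` with values in `J(Ω)`. -/
abbrev Cochain (F Ω : Type) [Field F] [Field Ω] [Algebra K Ω] [Algebra F Ω] (f : K[X]) : Type :=
  ℕ → (Ω ≃ₐ[F] Ω) → Jac 2 f Ω

/-- `c` is the coboundary of an element `R` of the Tate module `T_2 J`. -/
def IsTateCoboundary (c : Cochain F Ω f) : Prop :=
  ∃ R : ℕ → Jac 2 f Ω, IsTM 2 2 f R ∧ ∀ n, IsCobOf 2 f (c n) (R n)

/-- The map `κ` identifies with `M` the group of the classes of the cocycles with the property `P`: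
it is additive and surjective on these cocycles, and `κ c = 0` if and only if `c` is the coboundary of
an element of the Tate module. -/
structure IsClassMap (P : Cochain F Ω f → Prop) (M : Type) [AddCommGroup M]
    (κ : Cochain F Ω f → M) : Prop where
  surj : ∀ m, ∃ c, P c ∧ κ c = m
  add : ∀ c d, P c → P d → κ (c + d) = κ c + κ d
  zero : ∀ c, P c → (κ c = 0 ↔ IsTateCoboundary f c)

/-- `d` is the transform of the cochain `c` by the automorphism `T` of `Ω` over `K`:
`d (σ) = T (c (σ'))`, where `σ' = T⁻¹ σ T`. -/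
def IsTransform (T : Ω ≃ₐ[K] Ω) (c d : Cochain F Ω f) : Prop :=
  ∀ n (σ σ' : Ω ≃ₐ[F] Ω), (∀ x, T (σ' x) = σ (T x)) → d n σ = jm 2 f (ak T) (c n σ')

/-- The endomorphism `φ` of `M` is induced by the automorphism `T` of `Ω` over `K`. -/
def IsInduced (P : Cochain F Ω f → Prop) {M : Type} (κ : Cochain F Ω f → M) (T : Ω ≃ₐ[K] Ω)
    (φ : M → M) : Prop :=
  ∀ c d, P c → IsTransform f T c d → P d ∧ κ d = φ (κ c)

end gen

section rep

variable {G M : Type} [Group G] [AddCommGroup M] [Module ℤ_[2] M] (A : G → (M →ₗ[ℤ_[2]] M) → Prop)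
  (β : M → M → ℤ_[2])

/-- `β` is a symmetric bilinear form different from zero on `M` which is invariant under the action; `A T φ`
means that `T` in the group `G` acts on `M` as `φ`. -/
structure IsInvariantForm : Prop where
  add : ∀ x y z, β (x + y) z = β x z + β y z
  smul : ∀ (c : ℤ_[2]) x y, β (c • x) y = c * β x y
  symm : ∀ x y, β x y = β y x
  ne : ∃ x y, β x y ≠ 0
  inv : ∀ T φ, A T φ → ∀ x y, β (φ x) (φ y) = β x y

/-- The elements of `N` act as scalars in `ℤ_2`, equal to `1` or `-1` if there is an invariant form. -/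
def ActsByScalars (N : Set G) : Prop :=
  ∀ T ∈ N, ∀ φ, A T φ → ∃ c : ℤ_[2], (∀ m, φ m = c • m) ∧
    ((∃ β, IsInvariantForm A β) → c = 1 ∨ c = -1)

/-- Each submodule of `M` which is stable under `N` is zero or contains `2 ^ r M` for some `r`, and the
endomorphisms of `M` which commute with `N` are the elements of `ℤ_2`. -/
structure IsAbsolutelyIrreducible (N : Set G) : Prop where
  irreducible : ∀ U : Submodule ℤ_[2] M, (∀ T ∈ N, ∀ φ, A T φ → ∀ u ∈ U, φ u ∈ U) →
    U = ⊥ ∨ ∃ r : ℕ, ∀ m : M, (2 : ℤ_[2]) ^ r • m ∈ U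
  scalar : ∀ ψ : M →ₗ[ℤ_[2]] M, (∀ T ∈ N, ∀ φ, A T φ → ∀ m, ψ (φ m) = φ (ψ m)) →
    ∃ c : ℤ_[2], ∀ m, ψ m = c • m

end rep

section sel

variable {K F : Type} [Field K] [Field F] [Algebra K F] (B : Type) [CommRing B] [IsDedekindDomain B]
  [Algebra B F] [IsFractionRing B F] (f : K[X])

/-- The restriction of the cochain `c` to the completion of `F` at every maximal ideal of the Dedekind
domain `B` with field of fractions `F` is a coboundary. -/
def IsSelmer (c : (Sep F ≃ₐ[F] Sep F) → Jac 2 f (Sep F)) : Prop :=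
  ∀ v : HeightOneSpectrum B, LocTriv 2 f (Comp B F v) (Sep (Comp B F v)) c

/-- `c` is a continuous cocycle of `Gal(Sep F / F)` with values in the Tate module `T_2 J` which is
locally trivial at all the maximal ideals of the Dedekind domain `B` with field of fractions `F`; its
component with values in `J[2 ^ n]` is `c n`. -/
def IsSelmerCocycle (c : Cochain F (Sep F) f) : Prop :=
  IsTC 2 2 f c ∧ ∀ n, IsSelmer B f (c n)

/-- The automorphism `T` of `Sep F` over `K` acts on the module of the classes as `φ`. -/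
def ActsAs {M : Type} [AddCommGroup M] [Module ℤ_[2] M] (κ : Cochain F (Sep F) f → M)
    (T : Sep F ≃ₐ[K] Sep F) (φ : M →ₗ[ℤ_[2]] M) : Prop :=
  IsInduced f (IsSelmerCocycle B f) κ T φ

/-- The automorphisms `T` of `Sep F` over `K` which fix the extension `E` of `k`. -/
def fixing {k k' : Type} [Field k] [Field k'] [Algebra k k'] [Algebra k'[X] F]
    (E : IntermediateField k k') : Set (Sep F ≃ₐ[K] Sep F) :=
  {T | ∀ x ∈ E, T (algebraMap F (Sep F) (algebraMap k'[X] F (C x))) =
    algebraMap F (Sep F) (algebraMap k'[X] F (C x))}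

/-- The module `M` of the classes, with the action on it, has the property `R`. -/
def Concl (R : ∀ (M : Type) [AddCommGroup M] [Module ℤ_[2] M],
    ((Sep F ≃ₐ[K] Sep F) → (M →ₗ[ℤ_[2]] M) → Prop) → Prop) : Prop :=
  ∃ (M : Type) (_ : AddCommGroup M) (_ : Module ℤ_[2] M) (_ : Module.Finite ℤ_[2] M)
    (_ : Module.Free ℤ_[2] M) (κ : Cochain F (Sep F) f → M),
    IsClassMap f (IsSelmerCocycle B f) M κ ∧
    (∀ T : Sep F ≃ₐ[K] Sep F, ∃ φ : M →ₗ[ℤ_[2]] M, ActsAs B f κ T φ) ∧ R M (ActsAs B f κ)

end sel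

/-- The statement. -/
def Main : Prop :=
  ∀ (k k' K F L V : Type) [Field k] [Field k'] [Algebra k k'] [IsSepClosure k k'] [Field K]
    [Algebra k[X] K] [IsFractionRing k[X] K] [Field F] [Algebra k'[X] F] [IsFractionRing k'[X] F]
    [Algebra K F] (P : k[X][X]) [IsDedekindDomain (CurveRing k' P)] [Field L]
    [Algebra (CurveRing k' P) L] [IsFractionRing (CurveRing k' P) L] [AddCommGroup V] [Finite V]
    (cl : Lˣ → V) (Γ : Subgroup (AddMonoid.End V)ˣ),
    (∀ p : k[X], algebraMap K F (algebraMap k[X] K p) =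
      algebraMap k'[X] F (p.map (algebraMap k k'))) →
    IsSmoothCurve P →
    IsGaloisModule (squares L) (evenGroup (CurveRing k' P) L) (autUnits k' P L) cl Γ →
    IsVerySimple Γ →
      Concl (F := F) k'[X] (fPoly P K) fun M _ _ A =>
        (∃ (E : IntermediateField k k') (_ : FiniteDimensional k E), ActsByScalars A (fixing E)) ∨
          ∀ (E : IntermediateField k k') [FiniteDimensional k E],
            IsAbsolutelyIrreducible A (fixing E)

open Pool.Agent.Q45.GM (SelT clsOf clsOf_surj clsOf_add clsOf_zero rho rho_cls rho_mul isGeom_rat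
  IsBr with_dp evS sqS Fixes FixP exists_tau cs cs_apply)

section conv

variable {K F : Type} [Field K] [Field F] [Algebra K F] {B : Type} [CommRing B] [IsDedekindDomain B]
  [Algebra B F] [IsFractionRing B F] {f : K[X]}

theorem toTC {c : Cochain F (Sep F) f} (h : IsTC 2 2 f c) : Pool.Agent.Y160.SQ.IsTC 2 2 f c :=
  ⟨fun n => ⟨(h.coc n).lc, (h.coc n).mul⟩, h.zero, h.step⟩

theorem ofTC {c : Cochain F (Sep F) f} (h : Pool.Agent.Y160.SQ.IsTC 2 2 f c) : IsTC 2 2 f c :=
  ⟨fun n => ⟨(h.coc n).lc, (h.coc n).mul⟩, h.zero, h.step⟩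

/-- The classes of the cocycles. -/
theorem classMap : IsClassMap f (IsSelmerCocycle B f) (SelT (F := F) 2 B f 2) (clsOf B f) where
  surj m := by
    obtain ⟨c, ⟨h1, h2⟩, h3⟩ := clsOf_surj B f m
    exact ⟨c, ⟨ofTC h1, h2⟩, h3⟩
  add c d hc hd := clsOf_add B f (toTC hc.1) hc.2 (toTC hd.1) hd.2
  zero c hc := by
    refine (clsOf_zero B f (toTC hc.1) hc.2).trans ⟨?_, ?_⟩
    · rintro ⟨R, hR, h⟩
      exact ⟨R, ⟨hR.zero, hR.step⟩, h⟩
    · rintro ⟨R, hR, h⟩
      exact ⟨R, ⟨hR.zero, hR.step⟩, h⟩

end conv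


section acts

variable {k k' K F : Type} [Field k] [Field k'] [Algebra k k'] [IsSepClosed k']
  [Algebra.IsSeparable k k'] [Field K] [Algebra k[X] K] [Field F] [Algebra k'[X] F] [Algebra K F]

theorem acts_iff [IsFractionRing k'[X] F] (hF' : Pool.Agent.Q45.TW.IsGeom k k' K F) (f : K[X])
    (T : Sep F ≃ₐ[K] Sep F)
    (φ : SelT (F := F) 2 k'[X] f 2 →ₗ[ℤ_[2]] SelT (F := F) 2 k'[X] f 2) :
    ActsAs k'[X] f (clsOf k'[X] f) T φ ↔ φ = rho k'[X] hF' f T := by
  constructor
  · intro h
    refine LinearMap.ext fun m => ?_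
    obtain ⟨c, ⟨hc, hcs⟩, rfl⟩ := clsOf_surj k'[X] f m
    have hcj := Pool.Agent.Q45.GM.lf_T k'[X] hF' f T
    have hd : IsTransform f T c (fun n σ => jm 2 f (ak T)
        (c n ((Pool.Agent.Q45.GM.lf k'[X] hF' f T).conj σ))) := by
      intro n σ σ' hσ
      have h5 : (Pool.Agent.Q45.GM.lf k'[X] hF' f T).conj σ = σ' := by
        refine AlgEquiv.ext fun x => T.injective ?_
        rw [hσ]
        have h6 := (Pool.Agent.Q45.GM.lf k'[X] hF' f T).T_conj σ x
        rwa [hcj] at h6
      have h8 : ∀ ρ : Sep F ≃ₐ[F] Sep F, ρ = σ' →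
          jm 2 f (ak T) (c n ρ) = jm 2 f (ak T) (c n σ') := by
        rintro ρ rfl
        rfl
      exact h8 _ h5
    have h7 := (h c _ ⟨ofTC hc, hcs⟩ hd).2
    rw [← h7]
    exact (rho_cls k'[X] hF' f T hc hcs hd).2
  · rintro rfl c d hc hd
    obtain ⟨⟨h4, h5⟩, h6⟩ := rho_cls k'[X] hF' f T (toTC hc.1) hc.2 hd
    exact ⟨⟨ofTC h4, h5⟩, h6⟩

end acts

section convert

variable {V : Type} [AddCommGroup V] [Module (ZMod 2) V]

/-- An additive automorphism is linear. -/
noncomputable def toLin (g : (AddMonoid.End V)ˣ) : V ≃ₗ[ZMod 2] V :=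
  { AddMonoidHom.toZModLinearMap 2 (g.val : V →+ V) with
    invFun := fun v => (g⁻¹).val v
    left_inv := fun v => by
      show (g⁻¹).val (g.val v) = v
      have h1 := DFunLike.congr_fun (Units.inv_mul g) v
      exact h1
    right_inv := fun v => by
      show g.val ((g⁻¹).val v) = v
      have h1 := DFunLike.congr_fun (Units.mul_inv g) v
      exact h1 }

theorem toLin_apply (g : (AddMonoid.End V)ˣ) (v : V) : toLin g v = g.val v := rfl

/-- A linear automorphism is additive. -/
def toAdd : (V ≃ₗ[ZMod 2] V) →* (AddMonoid.End V)ˣ where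
  toFun e := ⟨e.toLinearMap.toAddMonoidHom, e.symm.toLinearMap.toAddMonoidHom,
    AddMonoidHom.ext fun v => e.apply_symm_apply v, AddMonoidHom.ext fun v => e.symm_apply_apply v⟩
  map_one' := rfl
  map_mul' _ _ := rfl

theorem toAdd_apply (e : V ≃ₗ[ZMod 2] V) (v : V) : (toAdd e).val v = e v := rfl

theorem toAdd_toLin (g : (AddMonoid.End V)ˣ) : toAdd (toLin g) = g :=
  Units.ext (AddMonoidHom.ext fun v => rfl)

theorem toLin_toAdd (e : V ≃ₗ[ZMod 2] V) : toLin (toAdd e) = e := LinearEquiv.ext fun v => rfl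

/-- The group of linear automorphisms. -/
def linGroup (Γ : Subgroup (AddMonoid.End V)ˣ) : Subgroup (V ≃ₗ[ZMod 2] V) := Γ.comap toAdd

theorem mem_linGroup {Γ : Subgroup (AddMonoid.End V)ˣ} {e : V ≃ₗ[ZMod 2] V} :
    e ∈ linGroup Γ ↔ toAdd e ∈ Γ := Iff.rfl

theorem scalar_iff (A : V →+ V) (B : V →ₗ[ZMod 2] V) (h : ∀ v, A v = B v) :
    IsScalar A ↔ B = 0 ∨ B = 1 := by
  constructor
  · rintro (h1 | h1)
    · left
      exact LinearMap.ext fun v => by rw [← h, h1]; rfl
    · right
      exact LinearMap.ext fun v => by rw [← h, h1]; rfl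
  · rintro (rfl | rfl)
    · left
      exact fun v => h v
    · right
      exact fun v => h v

/-- The ring of additive endomorphisms. -/
def toSubring (R : Subalgebra (ZMod 2) (Module.End (ZMod 2) V)) : Subring (AddMonoid.End V) where
  carrier := {A | ∃ B ∈ R, ∀ v, A v = B v}
  mul_mem' := by
    rintro A A' ⟨B, hB, h⟩ ⟨B', hB', h'⟩
    exact ⟨B * B', R.mul_mem hB hB', fun v => by
      show A (A' v) = B (B' v)
      rw [h, h']⟩
  one_mem' := ⟨1, R.one_mem, fun v => rfl⟩
  add_mem' := by
    rintro A A' ⟨B, hB, h⟩ ⟨B', hB', h'⟩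
    exact ⟨B + B', R.add_mem hB hB', fun v => by
      show A v + A' v = B v + B' v
      rw [h, h']⟩
  zero_mem' := ⟨0, R.zero_mem, fun v => rfl⟩
  neg_mem' := by
    rintro A ⟨B, hB, h⟩
    exact ⟨-B, R.neg_mem hB, fun v => by
      show -(A v) = -(B v)
      rw [h]⟩

theorem very_lin {Γ : Subgroup (AddMonoid.End V)ˣ} (h : IsVerySimple Γ) :
    Pool.Agent.Q45.OI.VerySimple (linGroup Γ) := by
  intro R hR
  rcases h (toSubring R) (by
    rintro g hg A ⟨B, hB, hAB⟩ A' hA'
    refine ⟨AddMonoidHom.toZModLinearMap 2 (A' : V →+ V), ?_, fun v => rfl⟩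
    refine hR (toLin g) (by rw [mem_linGroup, toAdd_toLin]; exact hg) B hB _ fun v => ?_
    have h2 := hA' v
    rw [hAB] at h2
    exact h2) with h1 | h1
  · left
    rw [eq_bot_iff]
    intro B hB
    rcases (scalar_iff B.toAddMonoidHom B fun v => rfl).1 (h1 _ ⟨B, hB, fun v => rfl⟩) with h2 | h2
    · rw [h2]
      exact zero_mem _
    · rw [h2]
      exact one_mem _
  · right
    rw [eq_top_iff]
    intro B _
    have h2 : (B.toAddMonoidHom : AddMonoid.End V) ∈ toSubring R := by rw [h1]; trivial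
    obtain ⟨B', hB', h3⟩ := h2
    have h4 : B = B' := LinearMap.ext fun v => h3 v
    rw [h4]
    exact hB'

end convert

theorem pm_one {G M : Type} [Group G] [AddCommGroup M] [Module ℤ_[2] M]
    {A : G → (M →ₗ[ℤ_[2]] M) → Prop} {T : G} {φ : M →ₗ[ℤ_[2]] M} (hT : A T φ) {c : ℤ_[2]}
    (hc : ∀ m, φ m = c • m) (h : ∃ β, IsInvariantForm A β) : c = 1 ∨ c = -1 := by
  obtain ⟨β, hβ⟩ := h
  obtain ⟨x, y, hxy⟩ := hβ.ne
  have h1 := hβ.inv T φ hT x y
  rw [hc, hc, hβ.smul, hβ.symm, hβ.smul, hβ.symm y x] at h1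
  have h2 : (c - 1) * (c + 1) * β x y = 0 := by linear_combination h1
  rcases mul_eq_zero.1 ((mul_eq_zero.1 h2).resolve_right hxy) with h3 | h3
  · left
    exact sub_eq_zero.1 h3
  · right
    exact eq_neg_of_add_eq_zero_left h3

theorem main : Main := by
  intro k k' K F L V _ _ _ hk' _ _ _ _ _ _ _ P _ _ _ _ _ _ cl Γ hcomp hP hV hΓ
  haveI : IsSepClosed k' := hk'.sep_closed
  haveI : Algebra.IsSeparable k k' := hk'.separable
  have hbr : IsBr P := ⟨hP.two, hP.monic, hP.odd, hP.separable, hP.smooth⟩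
  have hF' := isGeom_rat (K := K) (F := F) hcomp
  have h2V : ∀ v : V, 2 • v = 0 := by
    intro v
    obtain ⟨z, hz, rfl⟩ := hV.surj v
    have h1 : z * z ∈ squares L := ⟨z, pow_two z⟩
    rw [two_nsmul, ← hV.add z hz z hz, hV.zero _ (mul_mem hz hz)]
    exact h1
  letI : Module (ZMod 2) V := AddCommGroup.zmodModule h2V
  haveI : Module.Finite (ZMod 2) V := Module.Finite.of_finite
  refine with_dp (k' := k') (K := K) (F := F) hbr (Q := extendPoly k' P) rfl hcomp L ?_
  intro _ _ _ _ _ _ _ _ _ _ hgd a θ hfld hff hm hreg hfix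
  have hset : autUnits k' P L = Pool.Agent.Q45.OI.auts K θ := by
    ext φ
    constructor
    · rintro ⟨e, he, rfl⟩
      exact ⟨e, (hfix e).1 he, rfl⟩
    · rintro ⟨e, he, rfl⟩
      exact ⟨e, (hfix e).2 he, rfl⟩
  have hV' : Pool.Agent.Q45.OI.IsImg (sqS L) (evS (CurveRing k' P) L)
      (Pool.Agent.Q45.OI.auts K θ) cl (linGroup Γ) := by
    rw [← hset]
    refine ⟨hV.add, hV.zero, hV.surj, fun e he => ?_, fun g hg => hV.ofGroup _ hg⟩
    obtain ⟨g, hg, h1⟩ := hV.toGroup e he
    exact ⟨toLin g, by rw [mem_linGroup, toAdd_toLin]; exact hg, h1⟩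
  obtain ⟨h1, h2, h3⟩ := Pool.Agent.Q45.OI.core_vs (S := CurveRing k' P) k'[X] hgd
    Pool.Agent.Q45.OI.JCLIFF.main Pool.Agent.Q45.OI.JCOMM.main Pool.Agent.Q45.OI.KLC.red hF' hff hm
    hreg hfld hV' (very_lin hΓ)
  haveI i1 : Module.Finite ℤ_[2] (SelT (F := F) 2 k'[X] (fPoly P K) 2) := h1
  haveI i2 : Module.Free ℤ_[2] (SelT (F := F) 2 k'[X] (fPoly P K) 2) := h2
  have hind := acts_iff (K := K) (F := F) hF' (fPoly P K)
  refine ⟨SelT (F := F) 2 k'[X] (fPoly P K) 2, inferInstance, inferInstance, i1, i2,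
    clsOf k'[X] (fPoly P K), classMap, fun T => ⟨rho k'[X] hF' (fPoly P K) T, (hind T _).2 rfl⟩, ?_⟩
  rcases h3 with ⟨E, hE, h4⟩ | h4
  · left
    refine ⟨E, hE, fun T hT φ hφ => ?_⟩
    obtain ⟨c, hc⟩ := h4 T hT
    have h5 : ∀ m, φ m = c • m := by
      intro m
      rw [(hind T φ).1 hφ]
      exact hc m
    exact ⟨c, h5, fun hβ => pm_one hφ h5 hβ⟩
  · right
    intro E _
    have h5 := h4 E
    exact ⟨fun U hU => h5.1 U fun T hT u hu => hU T hT _ ((hind T _).2 rfl) u hu,
      fun ψ hψ => h5.2 ψ fun T hT m => hψ T hT _ ((hind T _).2 rfl) m⟩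

/-- **Double planes with a very simple Galois module on the branch curve.** -/
theorem result : Main := main

end Pool.Agent.Results.MP_6369ef_ag.VerySimpleBranchCurves
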